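import Pool.Agent.Helper86.QA.St5

/-!
# Project QD, part A (MP_d112a4_gt), module AV2: the pairing with the area cocycle
-/

set_option autoImplicit false

open MeasureTheory Matrix Set Topology Filter
open scoped ENNReal ComplexConjugate ComplexOrder

namespace Pool.Agent.Helper98.QA

open Pool.Agent.Helper86.QA Pool.Agent.Helper20

private theorem av2_mq0 (u : ℂ) : mq 0 u = u := by
  unfold mq
  simp

private theorem av2_in {ε : ℝ} {u v : ℂ} (hu : ‖u‖ < ε) (hv : ‖v‖ < ε) :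
    K2 ε 0 u v = dt2 u v := by
  unfold K2 k2
  rw [av2_mq0, av2_mq0, if_pos hu, if_pos hv, mul_one, mul_one]

private theorem av2_out {ε : ℝ} {u v : ℂ} (h : ¬ (‖u‖ < ε ∧ ‖v‖ < ε)) :
    K2 ε 0 u v = 0 := by
  unfold K2 k2
  rw [av2_mq0, av2_mq0]
  by_cases hu : ‖u‖ < ε
  · have hv : ¬ ‖v‖ < ε := fun hv => h ⟨hu, hv⟩
    rw [if_neg hv, mul_zero]
  · rw [if_neg hu, mul_zero, zero_mul]

private theorem av2_dt (u v : ℂ) : |dt2 u v| ≤ ‖u‖ * ‖v‖ := by
  have h : dt2 u v = (conj u * v).im := by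
    unfold dt2
    simp
    ring
  rw [h]
  refine (Complex.abs_im_le_norm _).trans ?_
  rw [norm_mul, Complex.norm_conj]

private theorem av2_mp (hMQ1 : StMQ1) (A : SL) (hA : QD.IsSU A) :
    MeasurePreserving (QD.mob A) m2 m2 := by
  have hm : Measurable (QD.mob A) := by
    unfold QD.mob
    fun_prop
  refine ⟨hm, ?_⟩
  ext s hs
  rw [Measure.map_apply hm hs]
  have h1 := hMQ1.2.2.1 A hA (s.indicator 1) (measurable_one.indicator hs)
  rw [lintegral_indicator_one hs] at h1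
  rw [← h1, ← lintegral_indicator_one (hm hs)]
  rfl

private theorem av2_ae (hMQ1 : StMQ1) : ∀ᵐ z ∂m2, z ∈ Metric.ball (0 : ℂ) 1 := by
  rw [ae_iff]
  exact hMQ1.2.1

private theorem av2_Adm (hAD1 : StAD1) : Measurable fun p : ℂ × ℂ => Ad 0 p.1 p.2 := by
  have hm0 : Measurable fun p : ℂ × ℂ => ((0 : ℂ), p) := measurable_const.prodMk measurable_id
  have h1 := hAD1.2.2.2.1
  have h2 := h1.comp hm0
  exact h2

private theorem av2_Km (hMQ2 : StMQ2) {ε : ℝ} (h0 : 0 < ε) (h1 : ε < 1) :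
    Measurable fun p : ℂ × ℂ => K2 ε 0 p.1 p.2 := by
  have hm0 : Measurable fun p : ℂ × ℂ => ((0 : ℂ), p) := measurable_const.prodMk measurable_id
  have h1 := (hMQ2 ε h0 h1).2.2.2.1
  have h2 := h1.comp hm0
  exact h2

private theorem av2_G {ε : ℝ} (hAD1 : StAD1) (hMQ2 : StMQ2) (h0 : 0 < ε) (h1 : ε < 1) :
    Measurable fun p : ℂ × ℂ => K2 ε 0 p.1 p.2 * Ad 0 p.1 p.2 :=
  (av2_Km hMQ2 h0 h1).mul (av2_Adm hAD1)

private theorem av2_inner (hAD1 : StAD1) (hMQ1 : StMQ1) (hMQ2 : StMQ2) {ε : ℝ} (h0 : 0 < ε)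
    (h1 : ε < 1) {x0 : ℂ} (hx0 : x0 ∈ Metric.ball (0 : ℂ) 1) :
    ∫ p : ℂ × ℂ, K2 ε x0 p.1 p.2 * Ad x0 p.1 p.2 ∂(m2.prod m2) = c2 ε := by
  obtain ⟨A, hA, hmq, -, -⟩ := hMQ1.2.2.2.1 x0 hx0
  have hmp := av2_mp hMQ1 A hA
  have := hMQ1.1
  have hmp2 : MeasurePreserving (Prod.map (QD.mob A) (QD.mob A)) (m2.prod m2) (m2.prod m2) :=
    hmp.prod hmp
  have hG := av2_G (ε := ε) hAD1 hMQ2 h0 h1
  have key := integral_map (μ := m2.prod m2) hmp2.measurable.aemeasurable
    (f := fun p : ℂ × ℂ => K2 ε 0 p.1 p.2 * Ad 0 p.1 p.2) hG.aestronglyMeasurable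
  rw [hmp2.map_eq] at key
  unfold c2
  rw [key]
  refine integral_congr_ae ?_
  have e1 : ∀ᵐ p ∂(m2.prod m2), p.1 ∈ Metric.ball (0 : ℂ) 1 :=
    Measure.quasiMeasurePreserving_fst.ae (av2_ae hMQ1)
  have e2 : ∀ᵐ p ∂(m2.prod m2), p.2 ∈ Metric.ball (0 : ℂ) 1 :=
    Measure.quasiMeasurePreserving_snd.ae (av2_ae hMQ1)
  filter_upwards [e1, e2] with p hp1 hp2
  have hx : QD.mob A x0 = 0 := by
    rw [← hmq x0]
    unfold mq
    rw [sub_self, zero_div]
  have hK := ((hMQ2 ε h0 h1).1 A hA x0 hx0 p.1 hp1 p.2 hp2).1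
  have hB := hAD1.2.2.1 A hA x0 (Metric.ball_subset_closedBall hx0) p.1
    (Metric.ball_subset_closedBall hp1) p.2 (Metric.ball_subset_closedBall hp2)
  rw [hx] at hK hB
  show K2 ε x0 p.1 p.2 * Ad x0 p.1 p.2 = K2 ε 0 (QD.mob A p.1) (QD.mob A p.2) *
    Ad 0 (QD.mob A p.1) (QD.mob A p.2)
  rw [hK, hB]

/-- comparison of the hyperbolic area with Lebesgue measure on the disc of radius `1/2` -/
private theorem av2_cmp {S : Set ℂ} (hS : MeasurableSet S) (hsub : S ⊆ Metric.closedBall 0 (1 / 2)) :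
    volume S ≤ m2 S ∧ m2 S ≤ 8 * volume S := by
  have hin : S ⊆ Metric.ball (0 : ℂ) 1 := fun z hz => by
    have h1 := hsub hz
    rw [mem_closedBall_zero_iff] at h1
    rw [mem_ball_zero_iff]
    linarith
  have e : m2 S = ∫⁻ z in S, ENNReal.ofReal (4 / (1 - ‖z‖ ^ 2) ^ 2) := by
    unfold m2
    rw [withDensity_apply _ hS, Measure.restrict_restrict hS, inter_eq_left.2 hin]
  rw [e]
  constructor
  · rw [← setLIntegral_one]
    refine setLIntegral_mono' hS fun z hz => ?_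
    have h1 := hsub hz
    rw [mem_closedBall_zero_iff] at h1
    have h2 : ‖z‖ ^ 2 ≤ 1 / 4 := by nlinarith [norm_nonneg z]
    have h3 : (1 : ℝ) ≤ 4 / (1 - ‖z‖ ^ 2) ^ 2 := by
      rw [le_div_iff₀ (by nlinarith)]
      nlinarith [sq_nonneg ‖z‖]
    rw [← ENNReal.ofReal_one]
    exact ENNReal.ofReal_le_ofReal h3
  · rw [← setLIntegral_const]
    refine setLIntegral_mono' hS fun z hz => ?_
    have h1 := hsub hz
    rw [mem_closedBall_zero_iff] at h1
    have h2 : ‖z‖ ^ 2 ≤ 1 / 4 := by nlinarith [norm_nonneg z]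
    have h3 : 4 / (1 - ‖z‖ ^ 2) ^ 2 ≤ (8 : ℝ) := by
      rw [div_le_iff₀ (by nlinarith)]
      nlinarith [sq_nonneg ‖z‖]
    refine (ENNReal.ofReal_le_ofReal h3).trans ?_
    simp

private theorem av2_ball {ε : ℝ} (h0 : 0 < ε) (h1 : ε ≤ 1 / 2) :
    m2 (Metric.ball 0 ε) ≤ ENNReal.ofReal (8 * Real.pi * ε ^ 2) := by
  have h2 : Metric.ball (0 : ℂ) ε ⊆ Metric.closedBall 0 (1 / 2) :=
    (Metric.ball_subset_ball h1).trans Metric.ball_subset_closedBall
  refine (av2_cmp measurableSet_ball h2).2.trans ?_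
  rw [Complex.volume_ball, ENNReal.ofReal_mul (by positivity), ENNReal.ofReal_mul (by positivity),
    ENNReal.ofReal_pow h0.le]
  have h3 : (NNReal.pi : ℝ≥0∞) = ENNReal.ofReal Real.pi := by
    rw [ENNReal.ofReal, ← NNReal.coe_real_pi, Real.toNNReal_coe]
  rw [h3]
  have h4 : ENNReal.ofReal 8 = 8 := by simp
  rw [h4, mul_comm (ENNReal.ofReal ε ^ 2), ← mul_assoc]

private theorem av2_low {ε : ℝ} (h0 : 0 < ε) (h1 : ε ≤ 1 / 2) {c : ℂ} (hc : ‖c‖ ≤ ε / 2) :
    ENNReal.ofReal (Real.pi * (ε / 8) ^ 2) ≤ m2 (Metric.ball c (ε / 8)) := by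
  have h2 : Metric.ball c (ε / 8) ⊆ Metric.closedBall 0 (1 / 2) := by
    intro z hz
    rw [mem_ball_iff_norm] at hz
    rw [mem_closedBall_zero_iff]
    have : ‖z‖ ≤ ‖z - c‖ + ‖c‖ := by
      have := norm_add_le (z - c) c
      rwa [sub_add_cancel] at this
    linarith
  refine le_trans ?_ (av2_cmp measurableSet_ball h2).1
  rw [Complex.volume_ball, ENNReal.ofReal_mul (by positivity), ENNReal.ofReal_pow (by positivity)]
  have h3 : (NNReal.pi : ℝ≥0∞) = ENNReal.ofReal Real.pi := by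
    rw [ENNReal.ofReal, ← NNReal.coe_real_pi, Real.toNNReal_coe]
  rw [h3, mul_comm]

/-- bounded functions with support in a set of finite measure -/
private theorem av2_bdd {μ : Measure (ℂ × ℂ)} {S : Set (ℂ × ℂ)} (hfin : μ S < ∞) {G : ℂ × ℂ → ℝ}
    (hG : Measurable G) {M : ℝ} (hM : ∀ p ∈ S, |G p| ≤ M)
    (h0 : ∀ p, p ∉ S → G p = 0) : Integrable G μ ∧ |∫ p, G p ∂μ| ≤ M * μ.real S := by
  have hs : Function.support G ⊆ S := fun p hp => by
    by_contra hn
    exact hp (h0 p hn)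
  constructor
  · refine (integrableOn_iff_integrable_of_support_subset hs).1 ?_
    have hfin' : IsFiniteMeasure (μ.restrict S) := ⟨by rwa [Measure.restrict_apply_univ]⟩
    exact Integrable.of_bound (C := M ⊔ 0) hG.aestronglyMeasurable (ae_of_all _ fun p => by
      by_cases hp : p ∈ S
      · exact (hM p hp).trans (le_max_left _ _)
      · rw [h0 p hp, norm_zero]
        exact le_max_right _ _)
  · rw [← setIntegral_eq_integral_of_forall_compl_eq_zero h0]
    exact norm_setIntegral_le_of_norm_le_const (f := G) hfin fun p hp => by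
      rw [Real.norm_eq_abs]
      exact hM p hp

theorem hAV2 (hAD1 : StAD1) (hMQ1 : StMQ1) (hMQ2 : StMQ2) : StAV2 := by
  have hsf := hMQ1.1
  constructor
  · intro F ε h0 h1 hF hm hfin
    unfold V2
    have e : ∫ x0 in F, ∫ p : ℂ × ℂ, K2 ε x0 p.1 p.2 * Ad x0 p.1 p.2 ∂(m2.prod m2) ∂m2 =
        ∫ _ in F, c2 ε ∂m2 :=
      setIntegral_congr_fun hm fun x0 hx0 => av2_inner hAD1 hMQ1 hMQ2 h0 h1 (hF hx0)
    rw [e, setIntegral_const, smul_eq_mul, mul_comm]
    rfl
  · obtain ⟨C1, hC1, δ0, hδ0, hAd⟩ := hAD1.2.2.2.2.2.2 0 one_pos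
    have hpi := Real.pi_pos
    set C : ℝ := 8 * C1 * (8 * Real.pi) ^ 2 + 8 * Real.pi with hC
    have hCpos : 0 < C := by positivity
    set c0 : ℝ := 1 / 64 * (Real.pi / 64) ^ 2 with hc0
    have hc0pos : 0 < c0 := by positivity
    refine ⟨c0, hc0pos, C, hCpos, min (1 / 2) (min δ0 (c0 / C)), by positivity, min_le_left _ _, ?_⟩
    intro ε h0 hε
    have h12 : ε < 1 / 2 := lt_of_lt_of_le hε (min_le_left _ _)
    have hδ : ε < δ0 := lt_of_lt_of_le hε ((min_le_right _ _).trans (min_le_left _ _))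
    have hcC : ε < c0 / C := lt_of_lt_of_le hε ((min_le_right _ _).trans (min_le_right _ _))
    have h1 : ε < 1 := by linarith
    set S : Set (ℂ × ℂ) := Metric.ball (0 : ℂ) ε ×ˢ Metric.ball (0 : ℂ) ε with hS
    have hmS : MeasurableSet S := measurableSet_ball.prod measurableSet_ball
    have hb := av2_ball h0 h12.le
    have hμS : (m2.prod m2) S ≤ ENNReal.ofReal ((8 * Real.pi * ε ^ 2) ^ 2) := by
      rw [hS, Measure.prod_prod, pow_two (8 * Real.pi * ε ^ 2), ENNReal.ofReal_mul (by positivity)]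
      exact mul_le_mul' hb hb
    have hμSfin : (m2.prod m2) S < ∞ := hμS.trans_lt ENNReal.ofReal_lt_top
    have hμSr : (m2.prod m2).real S ≤ (8 * Real.pi * ε ^ 2) ^ 2 :=
      ENNReal.toReal_le_of_le_ofReal (by positivity) hμS
    have hin : ∀ p ∈ S, K2 ε 0 p.1 p.2 = dt2 p.1 p.2 := fun p hp =>
      av2_in (mem_ball_zero_iff.1 hp.1) (mem_ball_zero_iff.1 hp.2)
    have hout : ∀ p, p ∉ S → K2 ε 0 p.1 p.2 = 0 := fun p hp =>
      av2_out fun h => hp ⟨mem_ball_zero_iff.2 h.1, mem_ball_zero_iff.2 h.2⟩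
    have hdt : ∀ p ∈ S, |dt2 p.1 p.2| ≤ ε ^ 2 := by
      intro p hp
      refine (av2_dt _ _).trans ?_
      rw [pow_two]
      exact mul_le_mul (mem_ball_zero_iff.1 hp.1).le (mem_ball_zero_iff.1 hp.2).le
        (norm_nonneg _) h0.le
    have hmK := av2_Km hMQ2 h0 h1
    have hmd : Measurable fun p : ℂ × ℂ => dt2 p.1 p.2 := by
      unfold dt2
      exact ((Complex.measurable_re.comp measurable_fst).mul
        (Complex.measurable_im.comp measurable_snd)).sub
        ((Complex.measurable_im.comp measurable_fst).mul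
        (Complex.measurable_re.comp measurable_snd))
    have hmA := av2_Adm hAD1
    -- the difference
    have hAd' : ∀ p ∈ S, |Ad 0 p.1 p.2 - 2 * dt2 p.1 p.2| ≤ C1 * (2 * ε) ^ 3 := by
      intro p hp
      have hp1 := mem_ball_zero_iff.1 hp.1
      have hp2 := mem_ball_zero_iff.1 hp.2
      have h2 := hAd 0 (by simp) p.1 p.2 (by linarith) (by linarith)
      simp only [zero_add, norm_zero] at h2
      norm_num at h2
      refine h2.trans ?_
      refine mul_le_mul_of_nonneg_left (pow_le_pow_left₀ (by positivity) (by linarith) 3) hC1.le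
    have hG1 := av2_bdd hμSfin (G := fun p => K2 ε 0 p.1 p.2 * (Ad 0 p.1 p.2 - 2 * dt2 p.1 p.2))
      (hmK.mul (hmA.sub (hmd.const_mul 2))) (M := ε ^ 2 * (C1 * (2 * ε) ^ 3))
      (fun p hp => by
        rw [hin p hp, abs_mul]
        exact mul_le_mul (hdt p hp) (hAd' p hp) (abs_nonneg _) (by positivity))
      (fun p hp => by rw [hout p hp, zero_mul])
    have hG2 := av2_bdd hμSfin (G := fun p => K2 ε 0 p.1 p.2 * dt2 p.1 p.2)
      (hmK.mul hmd) (M := ε ^ 2 * ε ^ 2)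
      (fun p hp => by
        rw [hin p hp, abs_mul]
        exact mul_le_mul (hdt p hp) (hdt p hp) (abs_nonneg _) (by positivity))
      (fun p hp => by rw [hout p hp, zero_mul])
    have hdiff : c2 ε - 2 * ∫ p : ℂ × ℂ, K2 ε 0 p.1 p.2 * dt2 p.1 p.2 ∂(m2.prod m2) =
        ∫ p, K2 ε 0 p.1 p.2 * (Ad 0 p.1 p.2 - 2 * dt2 p.1 p.2) ∂(m2.prod m2) := by
      have e1 : c2 ε = ∫ p : ℂ × ℂ, (K2 ε 0 p.1 p.2 * (Ad 0 p.1 p.2 - 2 * dt2 p.1 p.2) +
          2 * (K2 ε 0 p.1 p.2 * dt2 p.1 p.2)) ∂(m2.prod m2) := by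
        unfold c2
        congr 1
        funext p
        ring
      rw [e1, integral_add hG1.1 (hG2.1.const_mul 2), integral_const_mul]
      ring
    have hd9 : |c2 ε - 2 * ∫ p : ℂ × ℂ, K2 ε 0 p.1 p.2 * dt2 p.1 p.2 ∂(m2.prod m2)| ≤
        C * ε ^ 9 := by
      rw [hdiff]
      refine hG1.2.trans ?_
      calc ε ^ 2 * (C1 * (2 * ε) ^ 3) * (m2.prod m2).real S ≤
            ε ^ 2 * (C1 * (2 * ε) ^ 3) * (8 * Real.pi * ε ^ 2) ^ 2 :=
              mul_le_mul_of_nonneg_left hμSr (by positivity)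
        _ = 8 * C1 * (8 * Real.pi) ^ 2 * ε ^ 9 := by ring
        _ ≤ C * ε ^ 9 := by
            refine mul_le_mul_of_nonneg_right ?_ (by positivity)
            rw [hC]
            linarith
    -- the main term from below
    have hlow : c0 * ε ^ 8 ≤ ∫ p : ℂ × ℂ, K2 ε 0 p.1 p.2 * dt2 p.1 p.2 ∂(m2.prod m2) := by
      set a1 : ℂ := ((ε / 2 : ℝ) : ℂ) with ha1
      set a2 : ℂ := ((ε / 2 : ℝ) : ℂ) * Complex.I with ha2
      have hn1 : ‖a1‖ ≤ ε / 2 := by
        rw [ha1, Complex.norm_real, Real.norm_of_nonneg (by positivity)]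
      have hn2 : ‖a2‖ ≤ ε / 2 := by
        rw [ha2, norm_mul, Complex.norm_I, mul_one, Complex.norm_real,
          Real.norm_of_nonneg (by positivity)]
      set T : Set (ℂ × ℂ) := Metric.ball a1 (ε / 8) ×ˢ Metric.ball a2 (ε / 8) with hT
      have hmT : MeasurableSet T := measurableSet_ball.prod measurableSet_ball
      have hTS : T ⊆ S := by
        rintro p ⟨hp1, hp2⟩
        rw [mem_ball_iff_norm] at hp1 hp2
        have e1 : ‖p.1‖ ≤ ‖p.1 - a1‖ + ‖a1‖ := by
          have := norm_add_le (p.1 - a1) a1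
          rwa [sub_add_cancel] at this
        have e2 : ‖p.2‖ ≤ ‖p.2 - a2‖ + ‖a2‖ := by
          have := norm_add_le (p.2 - a2) a2
          rwa [sub_add_cancel] at this
        exact ⟨mem_ball_zero_iff.2 (by linarith), mem_ball_zero_iff.2 (by linarith)⟩
      have hTd : ∀ p ∈ T, ε ^ 4 / 64 ≤ K2 ε 0 p.1 p.2 * dt2 p.1 p.2 := by
        intro p hp
        rw [hin p (hTS hp)]
        obtain ⟨hp1, hp2⟩ := hp
        rw [mem_ball_iff_norm] at hp1 hp2
        have r1 := (Complex.abs_re_le_norm (p.1 - a1)).trans hp1.le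
        have r2 := (Complex.abs_im_le_norm (p.1 - a1)).trans hp1.le
        have r3 := (Complex.abs_re_le_norm (p.2 - a2)).trans hp2.le
        have r4 := (Complex.abs_im_le_norm (p.2 - a2)).trans hp2.le
        have s1 : (p.1 - a1).re = p.1.re - ε / 2 := by simp [ha1]
        have s2 : (p.1 - a1).im = p.1.im := by simp [ha1]
        have s3 : (p.2 - a2).re = p.2.re := by simp [ha2]
        have s4 : (p.2 - a2).im = p.2.im - ε / 2 := by simp [ha2]
        rw [s1] at r1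
        rw [s2] at r2
        rw [s3] at r3
        rw [s4] at r4
        rw [abs_le] at r1 r2 r3 r4
        have t1 : 3 * ε / 8 ≤ p.1.re := by linarith [r1.1]
        have t4 : 3 * ε / 8 ≤ p.2.im := by linarith [r4.1]
        have t14 : (3 * ε / 8) * (3 * ε / 8) ≤ p.1.re * p.2.im :=
          mul_le_mul t1 t4 (by positivity) (by linarith)
        have t23 : p.1.im * p.2.re ≤ (ε / 8) * (ε / 8) := by
          refine (le_abs_self _).trans ?_
          rw [abs_mul]
          exact mul_le_mul (abs_le.2 r2) (abs_le.2 r3) (abs_nonneg _) (by positivity)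
        have hd : ε ^ 2 / 8 ≤ dt2 p.1 p.2 := by
          unfold dt2
          nlinarith
        have hd2 : ε ^ 2 / 8 * (ε ^ 2 / 8) ≤ dt2 p.1 p.2 * dt2 p.1 p.2 :=
          mul_le_mul hd hd (by positivity) (le_trans (by positivity) hd)
        calc ε ^ 4 / 64 = ε ^ 2 / 8 * (ε ^ 2 / 8) := by ring
          _ ≤ _ := hd2
      have hpos : ∀ p : ℂ × ℂ, 0 ≤ K2 ε 0 p.1 p.2 * dt2 p.1 p.2 := by
        intro p
        by_cases hp : p ∈ S
        · rw [hin p hp]
          exact mul_self_nonneg _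
        · rw [hout p hp, zero_mul]
      have hTfin : (m2.prod m2) T ≠ ∞ := ((measure_mono hTS).trans_lt hμSfin).ne
      have hTlow : (Real.pi * (ε / 8) ^ 2) ^ 2 ≤ (m2.prod m2).real T := by
        have e1 : ENNReal.ofReal ((Real.pi * (ε / 8) ^ 2) ^ 2) ≤ (m2.prod m2) T := by
          rw [hT, Measure.prod_prod, pow_two (Real.pi * (ε / 8) ^ 2),
            ENNReal.ofReal_mul (by positivity)]
          exact mul_le_mul' (av2_low h0 h12.le hn1) (av2_low h0 h12.le hn2)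
        exact (ENNReal.ofReal_le_iff_le_toReal hTfin).1 e1
      calc c0 * ε ^ 8 = ε ^ 4 / 64 * (Real.pi * (ε / 8) ^ 2) ^ 2 := by
            rw [hc0]
            ring
        _ ≤ ε ^ 4 / 64 * (m2.prod m2).real T :=
            mul_le_mul_of_nonneg_left hTlow (by positivity)
        _ = ∫ _ in T, ε ^ 4 / 64 ∂(m2.prod m2) := by
            rw [setIntegral_const, smul_eq_mul, mul_comm]
        _ ≤ ∫ p in T, K2 ε 0 p.1 p.2 * dt2 p.1 p.2 ∂(m2.prod m2) :=
            setIntegral_mono_on (integrableOn_const hTfin) hG2.1.integrableOn hmT hTd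
        _ ≤ _ := setIntegral_le_integral hG2.1 (ae_of_all _ hpos)
    refine ⟨?_, ?_, hd9⟩
    · have h2 := (abs_le.1 hd9).1
      have h3 : C * ε ^ 9 ≤ c0 * ε ^ 8 := by
        have h4 : C * ε ≤ c0 := by
          rw [lt_div_iff₀ hCpos] at hcC
          linarith
        calc C * ε ^ 9 = C * ε * ε ^ 8 := by ring
          _ ≤ c0 * ε ^ 8 := mul_le_mul_of_nonneg_right h4 (by positivity)
      linarith
    · refine hb.trans (ENNReal.ofReal_le_ofReal ?_)
      refine mul_le_mul_of_nonneg_right ?_ (by positivity)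
      rw [hC]
      have : 0 ≤ 8 * C1 * (8 * Real.pi) ^ 2 := by positivity
      linarith

end Pool.Agent.Helper98.QA
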